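import Pool.Agent.Lib.MP_4318ff_ag.R.Pencil
import Pool.Agent.Lib.MP_4318ff_ag.LA.All

/-!
# MP_4318ff_ag, folder R: all rigid configurations are arc rigid
-/

set_option autoImplicit false

namespace Pool.Agent.Lib.MP_4318ff_ag

open scoped LinearAlgebra.Projectivization

private theorem Small_cyc (k : Fin 3) : k + 1 ≠ k ∧ k + 2 ≠ k ∧ k + 1 ≠ k + 2 ∧
    ∀ i : Fin 3, i = k ∨ i = k + 1 ∨ i = k + 2 := by
  revert k
  decide

private theorem Small_third : ∀ k l : Fin 3, l ≠ k → ∃ m : Fin 3, m ≠ k ∧ m ≠ l ∧ ∀ i, i = k ∨ i = l ∨ i = m := by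
  decide

private theorem Small_detk {A : Type} [CommRing A] (k : Fin 3) (y : Fin 3 → A) :
    Matrix.det (Matrix.of ![Pi.single (k + 1) 1, Pi.single (k + 2) 1, y]) = y k := by
  rw [Matrix.det_fin_three]
  fin_cases k <;> simp [Pi.single_apply]

private theorem Small_sum {A : Type} [CommRing A] (k : Fin 3) (x : Fin 3 → A) (v : Fin 3 → Fin 3 → A) :
    Matrix.vecMul x (Matrix.of v) = x k • v k + (x (k + 1) • v (k + 1) + x (k + 2) • v (k + 2)) := by
  funext a
  rw [Matrix.vecMul, dotProduct, Fin.sum_univ_three]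
  simp only [Matrix.of_apply, Pi.add_apply, Pi.smul_apply, smul_eq_mul]
  fin_cases k
  · simp
    ring
  · simp
    ring
  · simp
    ring

private theorem Small_row (b : Fin 3 → Fin 3 → ℂ) (i : Fin 3) :
    Matrix.vecMul (Pi.single i 1) (Matrix.of b) = b i := by
  rw [Matrix.single_one_vecMul]
  rfl

/-- four lines, three of them concurrent -/
theorem Small_four {r : ℕ} (C : Config ℂ r) (b : Fin 3 → Fin r)
    (hb : IsUnit (Matrix.det (Matrix.of fun i => C.ℓ (b i)))) (k : Fin 3) (d : Fin r) (x : Fin 3 → ℂ)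
    (hd : C.ℓ d = Matrix.vecMul x (Matrix.of fun i => C.ℓ (b i))) (hxk : x k = 0) (hx : ∀ i, i ≠ k → x i ≠ 0)
    (hdb : d ∉ Set.range b) (hall : ∀ i, i = d ∨ i ∈ Set.range b) : C.ArcRigid := by
  classical
  intro L hL0 hdet
  obtain ⟨n1, n2, n12, hcase⟩ := Small_cyc k
  have hbinj : Function.Injective b := by
    intro i j hij
    by_contra hne
    have h3 : Matrix.det (Matrix.of fun i => C.ℓ (b i)) = 0 :=
      Matrix.det_zero_of_row_eq hne (by
        change C.ℓ (b i) = C.ℓ (b j)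
        rw [hij])
    rw [h3] at hb
    exact not_isUnit_zero hb
  obtain ⟨hΛu, y, hy, hcy⟩ := Pencil_y C b hb L hL0 d x hd
  -- the point of multiplicity three
  have hbne : b (k + 1) ≠ b (k + 2) := fun h => n12 (hbinj h)
  have hcr : crossProduct (C.ℓ (b (k + 1))) (C.ℓ (b (k + 2))) ≠ 0 :=
    crossProduct_ne_zero_iff_linearIndependent.2 (C.indep _ _ hbne)
  obtain ⟨P, hP1, hP2⟩ : ∃ P : Pt ℂ, b (k + 1) ∈ C.through P ∧ b (k + 2) ∈ C.through P := by
    obtain ⟨a, ha⟩ := Projectivization.exists_smul_eq_mk_rep ℂ _ hcr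
    refine ⟨Projectivization.mk ℂ _ hcr, ?_, ?_⟩
    · change C.ℓ (b (k + 1)) ⬝ᵥ (Projectivization.mk ℂ _ hcr).rep = 0
      rw [← ha]
      change C.ℓ (b (k + 1)) ⬝ᵥ ((a : ℂ) • _) = 0
      rw [dotProduct_smul, dot_self_cross, smul_zero]
    · change C.ℓ (b (k + 2)) ⬝ᵥ (Projectivization.mk ℂ _ hcr).rep = 0
      rw [← ha]
      change C.ℓ (b (k + 2)) ⬝ᵥ ((a : ℂ) • _) = 0
      rw [dotProduct_smul, dot_cross_self, smul_zero]
  have hP3 : d ∈ C.through P := by
    have h1 : C.ℓ (b (k + 1)) ⬝ᵥ P.rep = 0 := hP1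
    have h2 : C.ℓ (b (k + 2)) ⬝ᵥ P.rep = 0 := hP2
    change C.ℓ d ⬝ᵥ P.rep = 0
    rw [hd, Small_sum k, hxk, zero_smul, zero_add, add_dotProduct, smul_dotProduct, smul_dotProduct, h1, h2,
      smul_zero, smul_zero, add_zero]
  have hPM : P ∈ C.M := by
    have h1 : ({b (k + 1), b (k + 2), d} : Set (Fin r)) ⊆ C.through P := by
      rintro i (rfl | rfl | rfl)
      · exact hP1
      · exact hP2
      · exact hP3
    have h2 := Set.ncard_le_ncard h1 (Set.toFinite _)
    have h3 : ({b (k + 1), b (k + 2), d} : Set (Fin r)).ncard = 3 := by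
      rw [Set.ncard_eq_three]
      refine ⟨_, _, _, hbne, ?_, ?_, rfl⟩
      · intro h
        exact hdb ⟨_, h⟩
      · intro h
        exact hdb ⟨_, h⟩
    rw [h3] at h2
    exact h2
  have hyk : y k = 0 := by
    have h1 := hdet P hPM _ hP1 _ hP2 _ hP3
    have h2 : Matrix.of ![L (b (k + 1)), L (b (k + 2)), L d] =
        Matrix.of ![Pi.single (k + 1) 1, Pi.single (k + 2) 1, y] * Matrix.of fun i => L (b i) := by
      refine Matrix.ext fun i a => ?_
      rw [Matrix.mul_apply_eq_vecMul]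
      fin_cases i
      · change L (b (k + 1)) a = Matrix.vecMul (Pi.single (k + 1) 1) (Matrix.of fun i => L (b i)) a
        rw [Matrix.single_one_vecMul]
        rfl
      · change L (b (k + 2)) a = Matrix.vecMul (Pi.single (k + 2) 1) (Matrix.of fun i => L (b i)) a
        rw [Matrix.single_one_vecMul]
        rfl
      · change L d a = Matrix.vecMul y (Matrix.of fun i => L (b i)) a
        rw [hy]
    rw [h2, Matrix.det_mul, Small_detk] at h1
    exact (mul_eq_zero.1 h1).resolve_right hΛu.ne_zero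
  -- the scaling factors
  set α : Fin 3 → PowerSeries ℂ := fun i => if i = k then 1 else y i * PowerSeries.C (x i)⁻¹ with hα
  have hαk : α k = 1 := if_pos rfl
  have hαn : ∀ i, i ≠ k → α i = y i * PowerSeries.C (x i)⁻¹ := fun i hi => if_neg hi
  have hαu : ∀ i, IsUnit (α i) := by
    intro i
    by_cases hi : i = k
    · rw [hi, hαk]
      exact isUnit_one
    · rw [hαn i hi, PowerSeries.isUnit_iff_constantCoeff, map_mul, hcy, PowerSeries.constantCoeff_C,
        mul_inv_cancel₀ (hx i hi)]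
      exact isUnit_one
  obtain ⟨g, hg, hgb⟩ := Pencil_g C b hb L hL0 α hαu
  have hgd : Matrix.vecMul (Rigid_hat (C.ℓ d)) g = L d := by
    have h1 : Rigid_hat (C.ℓ d) =
        PowerSeries.C (x (k + 1)) • Rigid_hat (C.ℓ (b (k + 1))) + PowerSeries.C (x (k + 2)) • Rigid_hat (C.ℓ (b (k + 2))) := by
      funext a
      change PowerSeries.C (C.ℓ d a) = _
      rw [hd, Small_sum k, hxk, zero_smul, zero_add]
      simp only [Pi.add_apply, Pi.smul_apply, smul_eq_mul, map_add, map_mul]
      rfl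
    have h2 : ∀ i, i ≠ k → PowerSeries.C (x i) * α i = y i := by
      intro i hi
      rw [hαn i hi, mul_comm (y i), ← mul_assoc, ← map_mul, mul_inv_cancel₀ (hx i hi), map_one, one_mul]
    rw [h1, Matrix.add_vecMul, Matrix.smul_vecMul, Matrix.smul_vecMul, hgb, hgb, smul_smul, smul_smul, h2 _ n1,
      h2 _ n2, ← hy, Small_sum k, hyk, zero_smul, zero_add]
  have hs : ∀ i, ∃ s : PowerSeries ℂ, IsUnit s ∧
      L i = s • Matrix.vecMul (fun a => PowerSeries.C (C.ℓ i a)) g := by
    intro i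
    rcases hall i with h | ⟨j, h⟩
    · rw [h]
      refine ⟨1, isUnit_one, ?_⟩
      rw [one_smul]
      exact hgd.symm
    · rw [← h]
      obtain ⟨u, hu⟩ := hαu j
      refine ⟨((u⁻¹ : (PowerSeries ℂ)ˣ) : PowerSeries ℂ), Units.isUnit _, ?_⟩
      have h1 : Matrix.vecMul (fun a => PowerSeries.C (C.ℓ (b j) a)) g = α j • L (b j) := hgb j
      rw [h1, ← hu, smul_smul, Units.inv_mul, one_smul]
  choose s hs1 hs2 using hs
  exact ⟨g, s, hg, hs1, hs2⟩

/-- at least five lines, all but one of them concurrent: not rigid -/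
theorem Small_big {r : ℕ} (C : Config ℂ r) (b : Fin 3 → Fin r)
    (hb : IsUnit (Matrix.det (Matrix.of fun i => C.ℓ (b i)))) (k : Fin 3) (x : Fin r → Fin 3 → ℂ)
    (hx : ∀ i, C.ℓ i = Matrix.vecMul (x i) (Matrix.of fun i => C.ℓ (b i)))
    (hxk : ∀ i, i ≠ b k → x i k = 0) (d e : Fin r) (hde : d ≠ e) (hdb : d ∉ Set.range b) (heb : e ∉ Set.range b) :
    ¬ C.Rigid := by
  classical
  rintro ⟨ε, hε, hrig⟩
  obtain ⟨n1, n2, n12, hcase⟩ := Small_cyc k
  have hxb : ∀ j, x (b j) = Pi.single j 1 := by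
    intro j
    refine Rigid_inj _ hb _ _ ?_
    rw [← hx, Matrix.single_one_vecMul]
    rfl
  have hrow : ∀ j, Matrix.vecMul (Pi.single j 1) (Matrix.of fun i => C.ℓ (b i)) = C.ℓ (b j) := by
    intro j
    rw [Matrix.single_one_vecMul]
    rfl
  have hbk : ∀ i, i ∉ Set.range b → i ≠ b k := by
    rintro i hi rfl
    exact hi ⟨k, rfl⟩
  -- the two coefficients are not zero
  have hnz : ∀ i, i ∉ Set.range b → x i (k + 1) ≠ 0 ∧ x i (k + 2) ≠ 0 := by
    intro i hi
    have h0 := hxk i (hbk i hi)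
    constructor
    · intro h1
      have h2 : C.ℓ i = x i (k + 2) • C.ℓ (b (k + 2)) := by
        conv_lhs => rw [hx i, Small_sum k, h0, h1, zero_smul, zero_smul, zero_add, zero_add]
      have h3 := C.indep i (b (k + 2)) (fun h => hi ⟨_, h.symm⟩)
      rw [LinearIndependent.pair_iff] at h3
      have h4 := (h3 1 (-x i (k + 2)) (by rw [one_smul, neg_smul, ← h2, add_neg_cancel])).1
      exact one_ne_zero h4
    · intro h1
      have h2 : C.ℓ i = x i (k + 1) • C.ℓ (b (k + 1)) := by
        conv_lhs => rw [hx i, Small_sum k, h0, h1, zero_smul, zero_smul, zero_add, add_zero]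
      have h3 := C.indep i (b (k + 1)) (fun h => hi ⟨_, h.symm⟩)
      rw [LinearIndependent.pair_iff] at h3
      have h4 := (h3 1 (-x i (k + 1)) (by rw [one_smul, neg_smul, ← h2, add_neg_cancel])).1
      exact one_ne_zero h4
  -- the deformation
  set l : Fin r := b (k + 1) with hl
  have hle : l ≠ e := fun h => heb ⟨_, h⟩
  set S : ℝ := ∑ a, ‖C.ℓ l a‖ with hS
  have hS0 : 0 ≤ S := Finset.sum_nonneg fun a _ => norm_nonneg _
  set δ : ℂ := ((ε / (S + 1) : ℝ) : ℂ) with hδ
  have hδ0 : δ ≠ 0 := by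
    rw [hδ, Complex.ofReal_ne_zero]
    positivity
  have hδn : ‖δ‖ = ε / (S + 1) := by
    rw [hδ, Complex.norm_real, Real.norm_eq_abs, abs_of_pos (by positivity)]
  obtain ⟨g, s, hg, hs, hL⟩ := hrig (fun i => if i = e then C.ℓ e + δ • C.ℓ l else C.ℓ i) (by
    intro i a
    by_cases hi : i = e
    · simp only [if_pos hi]
      rw [hi, Pi.add_apply, Pi.smul_apply, add_sub_cancel_left, smul_eq_mul, norm_mul, hδn]
      have h1 : ‖C.ℓ l a‖ ≤ S := Finset.single_le_sum (f := fun a => ‖C.ℓ l a‖) (fun a _ => norm_nonneg _)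
        (Finset.mem_univ a)
      rw [div_mul_eq_mul_div, div_lt_iff₀ (by positivity)]
      have h2 : ε * ‖C.ℓ l a‖ ≤ ε * S := mul_le_mul_of_nonneg_left h1 hε.le
      linarith
    · simp only [if_neg hi]
      rw [sub_self, norm_zero]
      exact hε) (by
    intro P hP
    refine ⟨P.rep, P.rep_nonzero, fun i hi => ?_⟩
    have hi0 : C.ℓ i ⬝ᵥ P.rep = 0 := hi
    by_cases hie : i = e
    · rw [if_pos hie]
      subst hie
      rw [add_dotProduct, hi0, zero_add, smul_dotProduct]
      -- another line of the pencil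
      obtain ⟨m, hm, hmi, hmk⟩ := (la_bas ℂ r C).2.2.2.1 P hP i (b k)
      have hm0 : C.ℓ m ⬝ᵥ P.rep = 0 := hm
      have e1 : x i (k + 1) * (C.ℓ (b (k + 1)) ⬝ᵥ P.rep) + x i (k + 2) * (C.ℓ (b (k + 2)) ⬝ᵥ P.rep) = 0 := by
        rw [hx i, Small_sum k, hxk i (hbk i heb), zero_smul, zero_add, add_dotProduct, smul_dotProduct,
          smul_dotProduct] at hi0
        exact hi0
      have e2 : x m (k + 1) * (C.ℓ (b (k + 1)) ⬝ᵥ P.rep) + x m (k + 2) * (C.ℓ (b (k + 2)) ⬝ᵥ P.rep) = 0 := by
        rw [hx m, Small_sum k, hxk m hmk, zero_smul, zero_add, add_dotProduct, smul_dotProduct,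
          smul_dotProduct] at hm0
        exact hm0
      have hdet : x i (k + 1) * x m (k + 2) - x i (k + 2) * x m (k + 1) ≠ 0 := by
        intro h0
        have h1 := LinearIndependent.pair_iff.1 (C.indep i m hmi.symm) (x m (k + 1)) (-(x i (k + 1))) (by
          rw [hx i, hx m, Small_sum k, Small_sum k, hxk i (hbk i heb), hxk m hmk, zero_smul, zero_add, zero_add]
          have h2 : x m (k + 1) • (x i (k + 1) • C.ℓ (b (k + 1)) + x i (k + 2) • C.ℓ (b (k + 2))) +
              -x i (k + 1) • (x m (k + 1) • C.ℓ (b (k + 1)) + x m (k + 2) • C.ℓ (b (k + 2))) =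
              (-(x i (k + 1) * x m (k + 2) - x i (k + 2) * x m (k + 1))) • C.ℓ (b (k + 2)) := by
            module
          rw [h2, h0, neg_zero, zero_smul])
        exact (hnz i heb).1 (neg_eq_zero.1 h1.2)
      have h3 : (x i (k + 1) * x m (k + 2) - x i (k + 2) * x m (k + 1)) * (C.ℓ (b (k + 1)) ⬝ᵥ P.rep) = 0 := by
        linear_combination x m (k + 2) * e1 - x i (k + 2) * e2
      rw [(mul_eq_zero.1 h3).resolve_left hdet, smul_zero]
    · rw [if_neg hie]
      exact hi0)
  -- the eigenvalues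
  have heig : ∀ i, i ≠ e → Matrix.vecMul (C.ℓ i) g = (s i)⁻¹ • C.ℓ i := by
    intro i hi
    have h1 := hL i
    simp only [if_neg hi] at h1
    conv_rhs => rw [h1]
    rw [smul_smul, inv_mul_cancel₀ (hs i), one_smul]
  have hbne : ∀ j, b j ≠ e := fun j h => heb ⟨j, h⟩
  obtain ⟨hd1, hd2⟩ := hnz d hdb
  obtain ⟨he1, he2⟩ := hnz e heb
  have hdk := hxk d (hbk d hdb)
  have hek := hxk e (hbk e heb)
  have hexp : ∀ i, x i k = 0 → Matrix.vecMul (C.ℓ i) g =
      Matrix.vecMul (fun j => if j = k then 0 else x i j * (s (b j))⁻¹) (Matrix.of fun i => C.ℓ (b i)) := by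
    intro i hi
    rw [Small_sum k, if_pos rfl, zero_smul, zero_add, if_neg n1, if_neg n2]
    conv_lhs => rw [hx i, Small_sum k, hi, zero_smul, zero_add]
    rw [Matrix.add_vecMul, Matrix.smul_vecMul, Matrix.smul_vecMul, heig _ (hbne _), heig _ (hbne _), smul_smul,
      smul_smul]
  have h5 := heig d hde
  rw [hexp d hdk] at h5
  have h6 : (fun j => if j = k then 0 else x d j * (s (b j))⁻¹) = (s d)⁻¹ • x d := by
    refine Rigid_inj _ hb _ _ ?_
    rw [h5, Matrix.smul_vecMul, ← hx]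
  have h7 := congrFun h6 (k + 1)
  have h8 := congrFun h6 (k + 2)
  simp only [if_neg n1, Pi.smul_apply, smul_eq_mul] at h7
  simp only [if_neg n2, Pi.smul_apply, smul_eq_mul] at h8
  have h9 : (s (b (k + 1)))⁻¹ = (s d)⁻¹ := mul_left_cancel₀ hd1 (by rw [h7, mul_comm])
  have h10 : (s (b (k + 2)))⁻¹ = (s d)⁻¹ := mul_left_cancel₀ hd2 (by rw [h8, mul_comm])
  have h11 := hL e
  simp only [if_true] at h11
  rw [hexp e hek] at h11
  have h12 : x e + δ • Pi.single (k + 1) 1 =
      s e • (fun j => if j = k then 0 else x e j * (s (b j))⁻¹) := by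
    refine Rigid_inj _ hb _ _ ?_
    rw [Matrix.add_vecMul, Matrix.smul_vecMul, Matrix.smul_vecMul, ← hx, hrow, ← h11]
  have h13 := congrFun h12 (k + 1)
  have h14 := congrFun h12 (k + 2)
  simp only [Pi.add_apply, Pi.smul_apply, smul_eq_mul, Pi.single_eq_same, if_neg n1, h9, mul_one] at h13
  simp only [Pi.add_apply, Pi.smul_apply, smul_eq_mul, Pi.single_eq_of_ne (Ne.symm n12), if_neg n2, h10, mul_zero,
    add_zero] at h14
  have h15 : s e * (s d)⁻¹ = 1 := mul_left_cancel₀ he2 (by rw [mul_one]; linear_combination -h14)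
  apply hδ0
  linear_combination h13 + x e (k + 1) * h15

/-- **Rigid configurations are arc rigid.** -/
theorem Rigid_arc {r : ℕ} (C : Config ℂ r) (hC : C.Rigid) : C.ArcRigid := by
  classical
  obtain ⟨b, hb⟩ := Pencil_basis C
  have hx : ∀ i, ∃ x : Fin 3 → ℂ, C.ℓ i = Matrix.vecMul x (Matrix.of fun i => C.ℓ (b i)) := by
    intro i
    refine ⟨Matrix.vecMul (C.ℓ i) (Matrix.of fun i => C.ℓ (b i))⁻¹, ?_⟩
    rw [Matrix.vecMul_vecMul, Matrix.nonsing_inv_mul _ hb, Matrix.vecMul_one]
  choose x hx using hx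
  by_cases h1 : ∃ d, ∀ i, x d i ≠ 0
  · obtain ⟨d, hd⟩ := h1
    exact Rigid_frame C b d hb (x d) hd (hx d) hC
  push Not at h1
  -- the lines outside of the basis have exactly one coefficient zero
  have huniq : ∀ d, d ∉ Set.range b → ∀ k, x d k = 0 → x d (k + 1) ≠ 0 ∧ x d (k + 2) ≠ 0 := by
    intro d hd k hk
    constructor
    · intro h2
      have h3 : C.ℓ d = x d (k + 2) • C.ℓ (b (k + 2)) := by
        conv_lhs => rw [hx d, Small_sum k, hk, h2, zero_smul, zero_smul, zero_add, zero_add]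
      have h4 := C.indep d (b (k + 2)) (fun h => hd ⟨_, h.symm⟩)
      rw [LinearIndependent.pair_iff] at h4
      have h5 := (h4 1 (-x d (k + 2)) (by rw [one_smul, neg_smul, ← h3, add_neg_cancel])).1
      exact one_ne_zero h5
    · intro h2
      have h3 : C.ℓ d = x d (k + 1) • C.ℓ (b (k + 1)) := by
        conv_lhs => rw [hx d, Small_sum k, hk, h2, zero_smul, zero_smul, zero_add, add_zero]
      have h4 := C.indep d (b (k + 1)) (fun h => hd ⟨_, h.symm⟩)
      rw [LinearIndependent.pair_iff] at h4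
      have h5 := (h4 1 (-x d (k + 1)) (by rw [one_smul, neg_smul, ← h3, add_neg_cancel])).1
      exact one_ne_zero h5
  by_cases h2 : ∀ i, i ∈ Set.range b
  · exact Pencil_three C b hb h2
  push Not at h2
  obtain ⟨d, hd⟩ := h2
  obtain ⟨k, hk⟩ := h1 d
  obtain ⟨n1, n2, n12, hcase⟩ := Small_cyc k
  obtain ⟨hd1, hd2⟩ := huniq d hd k hk
  by_cases h3 : ∀ i, i = d ∨ i ∈ Set.range b
  · exact Small_four C b hb k d (x d) (hx d) hk (by
      intro i hi
      rcases hcase i with h | h | h
      · exact absurd h hi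
      · rw [h]
        exact hd1
      · rw [h]
        exact hd2) hd h3
  push Not at h3
  obtain ⟨e, hed, he⟩ := h3
  by_cases h4 : ∀ i, i ∉ Set.range b → x i k = 0
  · -- near pencil
    exfalso
    refine Small_big C b hb k x hx ?_ d e hed.symm hd he hC
    intro i hi
    by_cases hib : i ∈ Set.range b
    · obtain ⟨j, rfl⟩ := hib
      have h5 : x (b j) = Pi.single j 1 := by
        refine Rigid_inj _ hb _ _ ?_
        rw [← hx, Matrix.single_one_vecMul]
        rfl
      have hjk : k ≠ j := by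
        rintro rfl
        exact hi rfl
      rw [h5, Pi.single_eq_of_ne hjk]
    · exact h4 i hib
  · push Not at h4
    obtain ⟨f, hf, hfk⟩ := h4
    obtain ⟨l, hl⟩ := h1 f
    have hlk : l ≠ k := by
      rintro rfl
      exact hfk hl
    -- the third index
    obtain ⟨m, hmk, hml, hall⟩ := Small_third k l hlk
    have hdl : x d l ≠ 0 := by
      rcases hcase l with h | h | h
      · exact absurd h hlk
      · rw [h]
        exact hd1
      · rw [h]
        exact hd2
    have hdm : x d m ≠ 0 := by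
      rcases hcase m with h | h | h
      · exact absurd h hmk
      · rw [h]
        exact hd1
      · rw [h]
        exact hd2
    have hfm : x f m ≠ 0 := by
      obtain ⟨hf1, hf2⟩ := huniq f hf l hl
      rcases (Small_cyc l).2.2.2 m with h | h | h
      · exact absurd h hml
      · rw [h]
        exact hf1
      · rw [h]
        exact hf2
    obtain ⟨hb', hf'⟩ := Pencil_exchange C b hb d f (x d) (x f) (hx d) (hx f) m hdm
    refine Rigid_frame C (Function.update b m d) f hb' _ ?_ hf' hC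
    intro i
    rcases hall i with h | h | h
    · simp only [h, if_neg (Ne.symm hmk), hk, mul_zero, sub_zero]
      exact hfk
    · simp only [h, if_neg (Ne.symm hml), hl, zero_sub, neg_ne_zero]
      exact mul_ne_zero (div_ne_zero hfm hdm) hdl
    · simp only [h, if_true]
      exact div_ne_zero hfm hdm

/-- Rigid configurations are linearly rigid. -/
theorem Rigid_lin {r : ℕ} (C : Config ℂ r) (hC : C.Rigid) : C.LinRigid :=
  tArcLin ℂ r C (Rigid_arc C hC)

end Pool.Agent.Lib.MP_4318ff_ag
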