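import Pool.Agent.Lib.MP_4318ff_ag.R.Point

/-!
# MP_4318ff_ag, folder R: a nonconstant formal arc has nearby points in its Zariski closure
-/

set_option autoImplicit false

namespace Pool.Agent.Lib.MP_4318ff_ag

open Filter Topology

variable {σ : Type}

/-- The points of the Zariski closure of the arc `N`. -/
def ZPoint (N : σ → PowerSeries ℂ) (x : σ → ℂ) : Prop :=
  ∀ p : MvPolynomial σ ℂ, MvPolynomial.aeval N p = 0 → MvPolynomial.aeval x p = 0

private theorem Key_cont (p : MvPolynomial σ ℂ) : Continuous fun x : σ → ℂ => MvPolynomial.aeval x p := by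
  simp only [MvPolynomial.aeval_eq_eval]
  exact MvPolynomial.continuous_eval p

/-- the constant coefficient as an algebra homomorphism -/
private noncomputable def Key_c0 : PowerSeries ℂ →ₐ[ℂ] ℂ :=
  { (PowerSeries.constantCoeff : PowerSeries ℂ →+* ℂ) with
    commutes' := fun z => by
      change PowerSeries.constantCoeff (algebraMap ℂ (PowerSeries ℂ) z) = z
      rw [PowerSeries.algebraMap_apply]
      simp }

private theorem Key_c0_apply (f : PowerSeries ℂ) : Key_c0 f = PowerSeries.constantCoeff f := rfl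

/-- a polynomial which is 0 at `l` and 1 at finitely many other points -/
private theorem Key_sep (Z : Finset (σ → ℂ)) (l : σ → ℂ) :
    ∃ f : MvPolynomial σ ℂ, MvPolynomial.aeval l f = 0 ∧ ∀ z ∈ Z, z ≠ l → MvPolynomial.aeval z f = 1 := by
  classical
  have h : ∀ z : σ → ℂ, ∃ e : MvPolynomial σ ℂ, MvPolynomial.aeval l e = 1 ∧
      (z ≠ l → MvPolynomial.aeval z e = 0) := by
    intro z
    by_cases hz : z = l
    · exact ⟨1, by simp, fun h => absurd hz h⟩
    · obtain ⟨j, hj⟩ := Function.ne_iff.1 hz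
      refine ⟨MvPolynomial.C (l j - z j)⁻¹ * (MvPolynomial.X j - MvPolynomial.C (z j)), ?_, fun _ => ?_⟩
      · have h1 : l j - z j ≠ 0 := sub_ne_zero.2 (Ne.symm hj)
        simp [MvPolynomial.algebraMap_eq]
        field_simp
      · simp
  choose e he1 he2 using h
  refine ⟨1 - ∏ z ∈ Z.filter (fun z => z ≠ l), e z, ?_, ?_⟩
  · rw [map_sub, map_one, map_prod, Finset.prod_congr rfl fun z _ => he1 z, Finset.prod_const_one, sub_self]
  · intro z hz hzl
    rw [map_sub, map_one, map_prod, Finset.prod_eq_zero (Finset.mem_filter.2 ⟨hz, hzl⟩) (he2 z hzl), sub_zero]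

section Main

variable [Finite σ] (N : σ → PowerSeries ℂ)

/-- the map onto the subalgebra generated by the arc -/
private noncomputable def Key_phi : MvPolynomial σ ℂ →ₐ[ℂ] (MvPolynomial.aeval N : MvPolynomial σ ℂ →ₐ[ℂ] PowerSeries ℂ).range :=
  (MvPolynomial.aeval N).rangeRestrict

private theorem Key_phi_surj : Function.Surjective (Key_phi N) := AlgHom.rangeRestrict_surjective _

private theorem Key_pt (χ : (MvPolynomial.aeval N : MvPolynomial σ ℂ →ₐ[ℂ] PowerSeries ℂ).range →ₐ[ℂ] ℂ)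
    (p : MvPolynomial σ ℂ) :
    χ (Key_phi N p) = MvPolynomial.aeval (fun j => χ (Key_phi N (MvPolynomial.X j))) p := by
  have h : χ.comp (Key_phi N) = MvPolynomial.aeval (fun j => χ (Key_phi N (MvPolynomial.X j))) :=
    MvPolynomial.algHom_ext fun j => by simp
  exact DFunLike.congr_fun h p

private theorem Key_phi_eq_zero (p : MvPolynomial σ ℂ) (hp : MvPolynomial.aeval N p = 0) : Key_phi N p = 0 :=
  Subtype.ext hp

private theorem Key_zpt (χ : (MvPolynomial.aeval N : MvPolynomial σ ℂ →ₐ[ℂ] PowerSeries ℂ).range →ₐ[ℂ] ℂ) :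
    ZPoint N fun j => χ (Key_phi N (MvPolynomial.X j)) := by
  intro p hp
  rw [← Key_pt, Key_phi_eq_zero N p hp, map_zero]

/-- every point of the Zariski closure is a homomorphism -/
private theorem Key_hom (x : σ → ℂ) (hx : ZPoint N x) :
    ∃ χ : (MvPolynomial.aeval N : MvPolynomial σ ℂ →ₐ[ℂ] PowerSeries ℂ).range →ₐ[ℂ] ℂ,
      ∀ p, χ (Key_phi N p) = MvPolynomial.aeval x p := by
  classical
  have hker : ∀ a : MvPolynomial σ ℂ, a ∈ RingHom.ker (Key_phi N) → MvPolynomial.aeval x a = 0 := by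
    intro a ha
    have h1 : Key_phi N a = 0 := ha
    exact hx a (congrArg Subtype.val h1)
  refine ⟨(Ideal.Quotient.liftₐ (RingHom.ker (Key_phi N)) (MvPolynomial.aeval x) hker).comp
    (Ideal.quotientKerAlgEquivOfSurjective (Key_phi_surj N)).symm.toAlgHom, fun p => ?_⟩
  have h2 : (Ideal.quotientKerAlgEquivOfSurjective (Key_phi_surj N)).symm (Key_phi N p) =
      Ideal.Quotient.mk (RingHom.ker (Key_phi N)) p := by
    rw [AlgEquiv.symm_apply_eq]
    rfl
  change (Ideal.Quotient.liftₐ (RingHom.ker (Key_phi N)) (MvPolynomial.aeval x) hker)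
    ((Ideal.quotientKerAlgEquivOfSurjective (Key_phi_surj N)).symm (Key_phi N p)) = _
  rw [h2]
  rfl

private theorem Key_c0_phi (p : MvPolynomial σ ℂ) :
    PowerSeries.constantCoeff (Key_phi N p : PowerSeries ℂ) =
      MvPolynomial.aeval (fun j => PowerSeries.constantCoeff (N j)) p := by
  have h := Key_pt N (Key_c0.comp (Subalgebra.val _)) p
  refine Eq.trans h ?_
  congr 2
  funext j
  change PowerSeries.constantCoeff (MvPolynomial.aeval N (MvPolynomial.X j)) = _
  rw [MvPolynomial.aeval_X]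

private theorem Key_center : ZPoint N fun j => PowerSeries.constantCoeff (N j) := by
  intro p hp
  rw [← Key_c0_phi, Key_phi_eq_zero N p hp]
  simp

/-- The points near the centre over a point `y` of the affine space. -/
private theorem Key_lift {d : ℕ} {A : Type} [CommRing A] [IsDomain A] [Algebra ℂ A]
    (g : MvPolynomial (Fin d) ℂ →ₐ[ℂ] A) (hinj : Function.Injective g) (hint : g.IsIntegral) (f : A) :
    ∃ (n : ℕ) (b : MvPolynomial (Fin d) ℂ), n ≠ 0 ∧
      (∀ χ : A →ₐ[ℂ] ℂ, χ f = 0 → χ (g b) = 0) ∧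
      ∀ y : Fin d → ℂ, ∃ χ : A →ₐ[ℂ] ℂ, (∀ q, χ (g q) = MvPolynomial.eval y q) ∧
        ‖χ f‖ ^ n ≤ ‖MvPolynomial.eval y b‖ := by
  letI : Algebra (MvPolynomial (Fin d) ℂ) A := g.toRingHom.toAlgebra
  have halg : ∀ q, algebraMap (MvPolynomial (Fin d) ℂ) A q = g q := fun q => rfl
  haveI : Algebra.IsIntegral (MvPolynomial (Fin d) ℂ) A := ⟨hint⟩
  haveI : Module.IsTorsionFree (MvPolynomial (Fin d) ℂ) A :=
    Module.isTorsionFree_iff_algebraMap_injective.2 hinj
  have hf : IsIntegral (MvPolynomial (Fin d) ℂ) f := Algebra.IsIntegral.isIntegral f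
  set μ := minpoly (MvPolynomial (Fin d) ℂ) f with hμ
  have hmon : μ.Monic := minpoly.monic hf
  refine ⟨μ.natDegree, μ.coeff 0, (minpoly.natDegree_pos hf).ne', ?_, ?_⟩
  · intro χ hχ
    have h1 : Polynomial.eval₂ (algebraMap (MvPolynomial (Fin d) ℂ) A) f μ = 0 := minpoly.aeval _ f
    have h2 := congrArg χ h1
    rw [map_zero] at h2
    have h3 : χ (Polynomial.eval₂ (algebraMap (MvPolynomial (Fin d) ℂ) A) f μ) =
        Polynomial.eval₂ ((χ : A →+* ℂ).comp (algebraMap (MvPolynomial (Fin d) ℂ) A)) (χ f) μ :=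
      Polynomial.hom_eval₂ μ _ (χ : A →+* ℂ) f
    rw [h3, hχ, Polynomial.eval₂_at_zero] at h2
    exact h2
  · intro y
    have hPm : (μ.map (MvPolynomial.eval y)).Monic := hmon.map _
    have hdeg : (μ.map (MvPolynomial.eval y)).natDegree = μ.natDegree := hmon.natDegree_map _
    obtain ⟨τ, hτ, hτ'⟩ := R_root (μ.map (MvPolynomial.eval y)) hPm (by
      rw [hdeg]
      exact (minpoly.natDegree_pos hf).ne')
    rw [hdeg, Polynomial.coeff_map] at hτ'
    letI alg2 : Algebra (Polynomial (MvPolynomial (Fin d) ℂ)) A :=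
      ((Polynomial.aeval f : Polynomial (MvPolynomial (Fin d) ℂ) →ₐ[MvPolynomial (Fin d) ℂ] A).toRingHom).toAlgebra
    have halg2 : ∀ q : Polynomial (MvPolynomial (Fin d) ℂ),
        algebraMap (Polynomial (MvPolynomial (Fin d) ℂ)) A q = Polynomial.aeval f q := fun q => rfl
    haveI hint2 : Algebra.IsIntegral (Polynomial (MvPolynomial (Fin d) ℂ)) A := by
      refine ⟨fun a => ?_⟩
      obtain ⟨p, hp, hpa⟩ := Algebra.IsIntegral.isIntegral (R := MvPolynomial (Fin d) ℂ) a
      refine ⟨p.map Polynomial.C, hp.map _, ?_⟩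
      rw [Polynomial.eval₂_map]
      have h5 : (algebraMap (Polynomial (MvPolynomial (Fin d) ℂ)) A).comp Polynomial.C =
          algebraMap (MvPolynomial (Fin d) ℂ) A := by
        refine RingHom.ext fun q => ?_
        rw [RingHom.comp_apply, halg2, Polynomial.aeval_C]
      rw [h5]
      exact hpa
    obtain ⟨ψ, hψ⟩ := R_ext (R := Polynomial (MvPolynomial (Fin d) ℂ)) (S := A)
      (Polynomial.C.comp MvPolynomial.C) (by
        intro z
        rw [halg2, RingHom.comp_apply, Polynomial.aeval_C, halg]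
        have h6 := g.commutes z
        rw [MvPolynomial.algebraMap_eq] at h6
        exact h6)
      (Polynomial.eval₂RingHom (MvPolynomial.eval y) τ) (by
        intro z
        simp) (by
        intro x hx
        rw [halg2] at hx
        obtain ⟨q, rfl⟩ := minpoly.isIntegrallyClosed_dvd hf hx
        rw [map_mul]
        have h6 : (Polynomial.eval₂RingHom (MvPolynomial.eval y) τ) (minpoly (MvPolynomial (Fin d) ℂ) f) = 0 := by
          rw [Polynomial.coe_eval₂RingHom, ← Polynomial.eval_map]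
          exact hτ
        rw [h6, zero_mul])
    refine ⟨ψ, fun q => ?_, ?_⟩
    · have h7 := hψ (Polynomial.C q)
      rw [halg2, Polynomial.aeval_C, halg] at h7
      rw [h7]
      simp
    · have h7 := hψ Polynomial.X
      rw [halg2, Polynomial.aeval_X] at h7
      rw [h7]
      simpa using hτ'

/-- **Key lemma.** A nonconstant formal arc has points different from and arbitrarily close to its centre in its
Zariski closure. -/
theorem R_key (hN : ∃ j, N j ≠ PowerSeries.C (PowerSeries.constantCoeff (N j))) (ε : ℝ) (hε : 0 < ε) :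
    ∃ x : σ → ℂ, ZPoint N x ∧ x ≠ (fun j => PowerSeries.constantCoeff (N j)) ∧
      ∀ j, ‖x j - PowerSeries.constantCoeff (N j)‖ < ε := by
  classical
  haveI := Fintype.ofFinite σ
  set l : σ → ℂ := fun j => PowerSeries.constantCoeff (N j) with hl
  haveI : Algebra.FiniteType ℂ (MvPolynomial.aeval N : MvPolynomial σ ℂ →ₐ[ℂ] PowerSeries ℂ).range :=
    Algebra.FiniteType.of_surjective (Key_phi N) (Key_phi_surj N)
  obtain ⟨d, g, hinj, hint⟩ := exists_integral_inj_algHom_of_fg ℂ
    (MvPolynomial.aeval N : MvPolynomial σ ℂ →ₐ[ℂ] PowerSeries ℂ).range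
  choose G hG using fun i : Fin d => Key_phi_surj N (g (MvPolynomial.X i))
  -- values at homomorphisms
  have hval : ∀ (χ : (MvPolynomial.aeval N : MvPolynomial σ ℂ →ₐ[ℂ] PowerSeries ℂ).range →ₐ[ℂ] ℂ)
      (y : Fin d → ℂ), (∀ i, χ (g (MvPolynomial.X i)) = y i) → ∀ q, χ (g q) = MvPolynomial.eval y q := by
    intro χ y hy q
    have h : χ.comp g = MvPolynomial.aeval y := MvPolynomial.algHom_ext fun i => by
      rw [AlgHom.comp_apply, hy, MvPolynomial.aeval_X]
    have h1 := DFunLike.congr_fun h q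
    rw [AlgHom.comp_apply, MvPolynomial.aeval_eq_eval] at h1
    exact h1
  obtain ⟨χ0, hχ0⟩ := Key_hom N l (Key_center N)
  set y0 : Fin d → ℂ := fun i => MvPolynomial.aeval l (G i) with hy0
  -- `d ≠ 0`
  have hd : d ≠ 0 := by
    rintro rfl
    have h1 : (algebraMap ℂ (MvPolynomial.aeval N : MvPolynomial σ ℂ →ₐ[ℂ] PowerSeries ℂ).range).IsIntegral := by
      have h2 : algebraMap ℂ (MvPolynomial.aeval N : MvPolynomial σ ℂ →ₐ[ℂ] PowerSeries ℂ).range =
          (g : MvPolynomial (Fin 0) ℂ →+* _).comp MvPolynomial.C := by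
        refine RingHom.ext fun z => ?_
        have h6 := g.commutes z
        rw [MvPolynomial.algebraMap_eq] at h6
        exact h6.symm
      rw [h2]
      exact RingHom.IsIntegral.trans _ _ (RingHom.isIntegral_of_surjective _ (MvPolynomial.C_surjective (Fin 0))) hint
    haveI : Algebra.IsIntegral ℂ (MvPolynomial.aeval N : MvPolynomial σ ℂ →ₐ[ℂ] PowerSeries ℂ).range := ⟨h1⟩
    obtain ⟨j, hj⟩ := hN
    obtain ⟨c, hc⟩ := (IsAlgClosed.algebraMap_bijective_of_isIntegral (k := ℂ)
      (K := (MvPolynomial.aeval N : MvPolynomial σ ℂ →ₐ[ℂ] PowerSeries ℂ).range)).2 (Key_phi N (MvPolynomial.X j))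
    have h3 := congrArg Subtype.val hc
    have h4 : (Key_phi N (MvPolynomial.X j) : PowerSeries ℂ) = N j := by
      change MvPolynomial.aeval N (MvPolynomial.X j) = N j
      rw [MvPolynomial.aeval_X]
    have h5 : ((algebraMap ℂ (MvPolynomial.aeval N : MvPolynomial σ ℂ →ₐ[ℂ] PowerSeries ℂ).range c :
        (MvPolynomial.aeval N : MvPolynomial σ ℂ →ₐ[ℂ] PowerSeries ℂ).range) : PowerSeries ℂ) = PowerSeries.C c := by
      change algebraMap ℂ (PowerSeries ℂ) c = _
      rw [PowerSeries.algebraMap_apply]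
      simp
    rw [h4, h5] at h3
    apply hj
    rw [← h3]
    simp
  -- the integral equations of the coordinates
  choose m hm hm0 using fun j : σ => hint (Key_phi N (MvPolynomial.X j))
  have hroot : ∀ (χ : (MvPolynomial.aeval N : MvPolynomial σ ℂ →ₐ[ℂ] PowerSeries ℂ).range →ₐ[ℂ] ℂ)
      (y : Fin d → ℂ), (∀ q, χ (g q) = MvPolynomial.eval y q) → ∀ j,
      ((m j).map (MvPolynomial.eval y)).eval (χ (Key_phi N (MvPolynomial.X j))) = 0 := by
    intro χ y hy j
    have h1 := congrArg χ (hm0 j)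
    rw [map_zero] at h1
    have h2 := Polynomial.hom_eval₂ (m j)
      (g : MvPolynomial (Fin d) ℂ →+* (MvPolynomial.aeval N : MvPolynomial σ ℂ →ₐ[ℂ] PowerSeries ℂ).range)
      (χ : (MvPolynomial.aeval N : MvPolynomial σ ℂ →ₐ[ℂ] PowerSeries ℂ).range →+* ℂ)
      (Key_phi N (MvPolynomial.X j))
    have h3 : (χ : (MvPolynomial.aeval N : MvPolynomial σ ℂ →ₐ[ℂ] PowerSeries ℂ).range →+* ℂ).comp
        (g : MvPolynomial (Fin d) ℂ →+* (MvPolynomial.aeval N : MvPolynomial σ ℂ →ₐ[ℂ] PowerSeries ℂ).range) =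
        MvPolynomial.eval y :=
      RingHom.ext fun q => hy q
    rw [Polynomial.eval_map, ← h3]
    exact h2.symm.trans h1
  -- the points over `y0`
  set Z : Set (σ → ℂ) := {x | ZPoint N x ∧ ∀ i, MvPolynomial.aeval x (G i) = y0 i} with hZ
  have hZfin : Z.Finite := by
    refine Set.Finite.subset (Set.Finite.pi fun j => (((m j).map (MvPolynomial.eval y0)).rootSet_finite ℂ)) ?_
    rintro x ⟨hx1, hx2⟩
    obtain ⟨χ, hχ⟩ := Key_hom N x hx1
    rw [Set.mem_univ_pi]
    intro j
    rw [Polynomial.mem_rootSet]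
    refine ⟨((hm j).map _).ne_zero, ?_⟩
    have h1 := hroot χ y0 (hval χ y0 fun i => by rw [← hG, hχ, hx2]) j
    rw [hχ, MvPolynomial.aeval_X] at h1
    rw [Polynomial.coe_aeval_eq_eval]
    exact h1
  -- the separating function
  obtain ⟨fp, hfp0, hfp1⟩ := Key_sep hZfin.toFinset l
  obtain ⟨n, b, hn, hb, hlift⟩ := Key_lift g hinj hint (Key_phi N fp)
  have hb0 : MvPolynomial.eval y0 b = 0 := by
    rw [← hval χ0 y0 (fun i => by rw [← hG, hχ0])]
    exact hb χ0 (by rw [hχ0, hfp0])
  -- the sequence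
  have i0 : Fin d := ⟨0, Nat.pos_of_ne_zero hd⟩
  set ys : ℕ → Fin d → ℂ := fun s => Function.update y0 i0 (y0 i0 + (1 / ((s : ℂ) + 1))) with hys
  have hyl : Tendsto ys atTop (𝓝 y0) := by
    rw [tendsto_pi_nhds]
    intro i
    by_cases hi : i = i0
    · subst hi
      simp only [hys, Function.update_self]
      have h1 : Tendsto (fun s : ℕ => y0 i + (1 / ((s : ℂ) + 1))) atTop (𝓝 (y0 i + 0)) :=
        tendsto_const_nhds.add tendsto_one_div_add_atTop_nhds_zero_nat
      rw [add_zero] at h1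
      exact h1
    · simp only [hys, Function.update_of_ne hi]
      exact tendsto_const_nhds
  choose χ hχ1 hχ2 using fun s => hlift (ys s)
  set xs : ℕ → σ → ℂ := fun s j => χ s (Key_phi N (MvPolynomial.X j)) with hxs
  have hxp : ∀ s p, χ s (Key_phi N p) = MvPolynomial.aeval (xs s) p := fun s p => Key_pt N (χ s) p
  have hxz : ∀ s, ZPoint N (xs s) := fun s => Key_zpt N (χ s)
  -- bounded
  have hbdd : ∀ j, ∃ K : ℝ, ∀ s, ‖xs s j‖ ≤ K := by
    intro j
    have h1 : Continuous fun y : Fin d → ℂ =>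
        1 + ∑ i ∈ Finset.range (m j).natDegree, ‖MvPolynomial.eval y ((m j).coeff i)‖ := by
      refine continuous_const.add (continuous_finsetSum _ fun i _ => ?_)
      exact (MvPolynomial.continuous_eval _).norm
    have h2 := ((h1.tendsto y0).comp hyl).bddAbove_range
    obtain ⟨K, hK⟩ := h2
    refine ⟨K, fun s => ?_⟩
    have h3 := R_bound ((m j).map (MvPolynomial.eval (ys s))) ((hm j).map _) (xs s j)
      (hroot (χ s) (ys s) (hχ1 s) j)
    rw [(hm j).natDegree_map] at h3
    simp only [Polynomial.coeff_map] at h3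
    exact h3.trans (hK ⟨s, rfl⟩)
  choose K hK using hbdd
  obtain ⟨x', -, φ, hφ, hlim⟩ := (isCompact_univ_pi fun j => isCompact_closedBall (0 : ℂ) (K j)).tendsto_subseq
    (x := xs) (fun s => by
      rw [Set.mem_univ_pi]
      intro j
      rw [mem_closedBall_zero_iff]
      exact hK j s)
  have hlimp : ∀ p : MvPolynomial σ ℂ, Tendsto (fun s => MvPolynomial.aeval (xs (φ s)) p) atTop
      (𝓝 (MvPolynomial.aeval x' p)) := fun p => ((Key_cont p).tendsto x').comp hlim
  have hx'z : ZPoint N x' := by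
    intro p hp
    have h1 := hlimp p
    have h2 : (fun s => MvPolynomial.aeval (xs (φ s)) p) = fun _ => (0 : ℂ) := funext fun s => hxz (φ s) p hp
    rw [h2] at h1
    exact (tendsto_nhds_unique h1 tendsto_const_nhds)
  have hGs : ∀ s i, MvPolynomial.aeval (xs s) (G i) = ys s i := by
    intro s i
    rw [← hxp, hG, hχ1, MvPolynomial.eval_X]
  have hx'y : ∀ i, MvPolynomial.aeval x' (G i) = y0 i := by
    intro i
    have h1 := hlimp (G i)
    have h2 : (fun s => MvPolynomial.aeval (xs (φ s)) (G i)) = fun s => ys (φ s) i := funext fun s => hGs (φ s) i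
    rw [h2] at h1
    have h3 : Tendsto (fun s => ys (φ s) i) atTop (𝓝 (y0 i)) :=
      ((tendsto_pi_nhds.1 hyl) i).comp hφ.tendsto_atTop
    exact tendsto_nhds_unique h1 h3
  have hx'f : MvPolynomial.aeval x' fp = 0 := by
    have h1 : Tendsto (fun s => ‖MvPolynomial.aeval (xs (φ s)) fp‖ ^ n) atTop
        (𝓝 (‖MvPolynomial.aeval x' fp‖ ^ n)) := ((hlimp fp).norm).pow n
    have h2 : Tendsto (fun s => ‖MvPolynomial.eval (ys (φ s)) b‖) atTop (𝓝 (‖MvPolynomial.eval y0 b‖)) :=
      (((MvPolynomial.continuous_eval b).tendsto y0).comp (hyl.comp hφ.tendsto_atTop)).norm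
    rw [hb0, norm_zero] at h2
    have h3 : ‖MvPolynomial.aeval x' fp‖ ^ n ≤ 0 := by
      refine le_of_tendsto_of_tendsto' h1 h2 fun s => ?_
      rw [← hxp]
      exact hχ2 (φ s)
    have h4 : ‖MvPolynomial.aeval x' fp‖ ^ n = 0 := le_antisymm h3 (pow_nonneg (norm_nonneg _) n)
    exact norm_eq_zero.1 (pow_eq_zero_iff hn |>.1 h4)
  have hx'l : x' = l := by
    by_contra hne
    have h1 := hfp1 x' (hZfin.mem_toFinset.2 ⟨hx'z, hx'y⟩) hne
    rw [hx'f] at h1
    exact zero_ne_one h1
  -- conclusion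
  rw [hx'l] at hlim
  have hev : ∀ᶠ s in atTop, ∀ j, ‖xs (φ s) j - l j‖ < ε := by
    rw [eventually_all]
    intro j
    have h1 := (tendsto_pi_nhds.1 hlim) j
    have h2 := (Metric.tendsto_nhds.1 h1) ε hε
    refine h2.mono fun s hs => ?_
    rw [dist_eq_norm] at hs
    exact hs
  obtain ⟨s, hs⟩ := hev.exists
  refine ⟨xs (φ s), hxz _, ?_, hs⟩
  intro heq
  have h1 := hGs (φ s) i0
  rw [heq] at h1
  have h2 : ys (φ s) i0 = y0 i0 + (1 / (((φ s : ℕ) : ℂ) + 1)) := by
    simp only [hys, Function.update_self]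
  rw [h2] at h1
  have h3 : (1 / (((φ s : ℕ) : ℂ) + 1)) = 0 := by
    have h4 : MvPolynomial.aeval l (G i0) = y0 i0 := rfl
    rw [h4] at h1
    exact (left_eq_add.1 h1)
  have h5 : (((φ s : ℕ) : ℂ) + 1) ≠ 0 := Nat.cast_add_one_ne_zero _
  exact (one_div_ne_zero h5) h3

end Main

end Pool.Agent.Lib.MP_4318ff_ag
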