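import Pool.Agent.Lib.MP_4318ff_ag.R.Rigid

/-!
# MP_4318ff_ag, folder R: configurations without four lines in general position
-/

set_option autoImplicit false

namespace Pool.Agent.Lib.MP_4318ff_ag

open scoped LinearAlgebra.Projectivization

/-- three of the lines are not concurrent -/
theorem Pencil_basis {r : ℕ} (C : Config ℂ r) :
    ∃ b : Fin 3 → Fin r, IsUnit (Matrix.det (Matrix.of fun i => C.ℓ (b i))) := by
  by_contra hno
  push Not at hno
  obtain ⟨p, hp, hp'⟩ := Rigid_common Set.univ C.ℓ (by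
    intro i _ j _ m _
    have h1 := hno ![i, j, m]
    have h2 : (Matrix.of fun q => C.ℓ ((![i, j, m] : Fin 3 → Fin r) q)) = Matrix.of ![C.ℓ i, C.ℓ j, C.ℓ m] := by
      ext q a
      fin_cases q <;> rfl
    rw [h2, isUnit_iff_ne_zero, not_not] at h1
    exact h1)
  obtain ⟨a, ha⟩ := Function.ne_iff.1 hp
  have h1 : ∀ v ∈ Submodule.span ℂ (Set.range C.ℓ), v ⬝ᵥ p = 0 := by
    intro v hv
    induction hv using Submodule.span_induction with
    | mem x hx =>
      obtain ⟨i, rfl⟩ := hx
      exact hp' i (Set.mem_univ i)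
    | zero => exact zero_dotProduct _
    | add x y _ _ hx hy => rw [add_dotProduct, hx, hy, add_zero]
    | smul c x _ hx => rw [smul_dotProduct, hx, smul_zero]
  have h2 := h1 (Pi.single a 1) (by rw [C.span]; exact Submodule.mem_top)
  rw [single_dotProduct, one_mul] at h2
  exact ha h2

/-- exchange of one line of the basis -/
theorem Pencil_exchange {r : ℕ} (C : Config ℂ r) (b : Fin 3 → Fin r)
    (hb : IsUnit (Matrix.det (Matrix.of fun i => C.ℓ (b i)))) (d e : Fin r) (x z : Fin 3 → ℂ)
    (hd : C.ℓ d = Matrix.vecMul x (Matrix.of fun i => C.ℓ (b i)))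
    (he : C.ℓ e = Matrix.vecMul z (Matrix.of fun i => C.ℓ (b i))) (m : Fin 3) (hm : x m ≠ 0) :
    IsUnit (Matrix.det (Matrix.of fun i => C.ℓ ((Function.update b m d) i))) ∧
    C.ℓ e = Matrix.vecMul (fun i => if i = m then z m / x m else z i - z m / x m * x i)
      (Matrix.of fun i => C.ℓ ((Function.update b m d) i)) := by
  have h1 : (Matrix.of fun i => C.ℓ ((Function.update b m d) i)) =
      (Matrix.of fun i => if i = m then x else Pi.single i 1) * Matrix.of fun i => C.ℓ (b i) := by
    ext i a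
    rw [Matrix.mul_apply_eq_vecMul]
    by_cases hi : i = m
    · subst hi
      simp only [Matrix.of_apply, Function.update_self]
      have h2 : (Matrix.of (fun i' => if i' = i then x else Pi.single i' 1)) i = x := if_pos rfl
      rw [h2]
      exact congrFun hd a
    · simp only [Matrix.of_apply, Function.update_of_ne hi]
      have h2 : (Matrix.of (fun i => if i = m then x else Pi.single i 1)) i = (Pi.single i 1 : Fin 3 → ℂ) :=
        if_neg hi
      rw [h2, Matrix.single_one_vecMul]
      rfl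
  have hdet : Matrix.det (Matrix.of fun i => if i = m then x else (Pi.single i 1 : Fin 3 → ℂ)) = x m := by
    rw [Matrix.det_fin_three]
    fin_cases m <;> simp
  refine ⟨?_, ?_⟩
  · rw [h1, Matrix.det_mul, hdet]
    exact (isUnit_iff_ne_zero.2 hm).mul hb
  · rw [h1, ← Matrix.vecMul_vecMul]
    have h3 : Matrix.vecMul (fun i => if i = m then z m / x m else z i - z m / x m * x i)
        (Matrix.of fun i => if i = m then x else (Pi.single i 1 : Fin 3 → ℂ)) = z := by
      have hc : z m / x m * x m = z m := div_mul_cancel₀ _ hm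
      generalize z m / x m = c at hc ⊢
      funext a
      rw [Matrix.vecMul, dotProduct, Fin.sum_univ_three]
      fin_cases m <;> fin_cases a <;> simp <;> exact hc
    rw [h3]
    exact he

/-! ### Normal forms of arcs -/

theorem Pencil_unit (M : Matrix (Fin 3) (Fin 3) (PowerSeries ℂ))
    (hM : IsUnit (((PowerSeries.constantCoeff (R := ℂ)).mapMatrix M).det)) : IsUnit M.det := by
  rw [PowerSeries.isUnit_iff_constantCoeff]
  have h1 : PowerSeries.constantCoeff M.det = ((PowerSeries.constantCoeff (R := ℂ)).mapMatrix M).det := by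
    rw [RingHom.map_det]
  rw [h1]
  exact hM

/-- the projective transformation with prescribed values on a basis -/
theorem Pencil_g {r : ℕ} (C : Config ℂ r) (b : Fin 3 → Fin r)
    (hb : IsUnit (Matrix.det (Matrix.of fun i => C.ℓ (b i)))) (L : Fin r → Fin 3 → PowerSeries ℂ)
    (hL0 : ∀ i a, PowerSeries.constantCoeff (L i a) = C.ℓ i a) (α : Fin 3 → PowerSeries ℂ)
    (hα : ∀ i, IsUnit (α i)) :
    ∃ g : Matrix (Fin 3) (Fin 3) (PowerSeries ℂ), IsUnit g.det ∧
      ∀ i, Matrix.vecMul (Rigid_hat (C.ℓ (b i))) g = α i • L (b i) := by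
  have hΛu : IsUnit (Matrix.det (Matrix.of fun i => L (b i))) := by
    refine Pencil_unit _ ?_
    have h1 : (PowerSeries.constantCoeff (R := ℂ)).mapMatrix (Matrix.of fun i => L (b i)) =
        Matrix.of fun i => C.ℓ (b i) := by
      ext i a
      exact hL0 (b i) a
    rw [h1]
    exact hb
  have hΛhu : IsUnit (Matrix.det (Matrix.of fun i => Rigid_hat (C.ℓ (b i)))) := by
    refine Pencil_unit _ ?_
    have h1 : (PowerSeries.constantCoeff (R := ℂ)).mapMatrix (Matrix.of fun i => Rigid_hat (C.ℓ (b i))) =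
        Matrix.of fun i => C.ℓ (b i) := by
      ext i a
      change PowerSeries.constantCoeff (PowerSeries.C (C.ℓ (b i) a)) = C.ℓ (b i) a
      rw [PowerSeries.constantCoeff_C]
    rw [h1]
    exact hb
  refine ⟨(Matrix.of fun i => Rigid_hat (C.ℓ (b i)))⁻¹ * Matrix.diagonal α * Matrix.of fun i => L (b i), ?_, fun i =>
    Rigid_map (fun i => Rigid_hat (C.ℓ (b i))) (fun i => L (b i)) hΛhu α i⟩
  rw [Matrix.det_mul, Matrix.det_mul, Matrix.det_diagonal]
  refine ((Matrix.isUnit_nonsing_inv_det _ hΛhu).mul ?_).mul hΛu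
  rw [Fin.prod_univ_three]
  exact ((hα 0).mul (hα 1)).mul (hα 2)

/-- the coordinates of one more line -/
theorem Pencil_y {r : ℕ} (C : Config ℂ r) (b : Fin 3 → Fin r)
    (hb : IsUnit (Matrix.det (Matrix.of fun i => C.ℓ (b i)))) (L : Fin r → Fin 3 → PowerSeries ℂ)
    (hL0 : ∀ i a, PowerSeries.constantCoeff (L i a) = C.ℓ i a) (d : Fin r) (x : Fin 3 → ℂ)
    (hd : C.ℓ d = Matrix.vecMul x (Matrix.of fun i => C.ℓ (b i))) :
    IsUnit (Matrix.det (Matrix.of fun i => L (b i))) ∧
    ∃ y : Fin 3 → PowerSeries ℂ, Matrix.vecMul y (Matrix.of fun i => L (b i)) = L d ∧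
      ∀ i, PowerSeries.constantCoeff (y i) = x i := by
  have h0 : (PowerSeries.constantCoeff (R := ℂ)).mapMatrix (Matrix.of fun i => L (b i)) =
      Matrix.of fun i => C.ℓ (b i) := by
    ext i a
    exact hL0 (b i) a
  have hΛu : IsUnit (Matrix.det (Matrix.of fun i => L (b i))) := by
    refine Pencil_unit _ ?_
    rw [h0]
    exact hb
  refine ⟨hΛu, Matrix.vecMul (L d) (Matrix.of fun i => L (b i))⁻¹, ?_, ?_⟩
  · rw [Matrix.vecMul_vecMul, Matrix.nonsing_inv_mul _ hΛu, Matrix.vecMul_one]
  · have h1 : (fun i => PowerSeries.constantCoeff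
        (Matrix.vecMul (L d) (Matrix.of fun i => L (b i))⁻¹ i)) = x := by
      refine Rigid_inj _ hb _ _ ?_
      rw [← hd]
      have h2 : Matrix.vecMul (Matrix.vecMul (L d) (Matrix.of fun i => L (b i))⁻¹) (Matrix.of fun i => L (b i)) =
          L d := by
        rw [Matrix.vecMul_vecMul, Matrix.nonsing_inv_mul _ hΛu, Matrix.vecMul_one]
      funext a
      have h3 := congrArg PowerSeries.constantCoeff (congrFun h2 a)
      rw [Rigid_c0_vecMul, h0] at h3
      rw [h3]
      exact hL0 d a
    intro i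
    exact congrFun h1 i

/-- three lines -/
theorem Pencil_three {r : ℕ} (C : Config ℂ r) (b : Fin 3 → Fin r)
    (hb : IsUnit (Matrix.det (Matrix.of fun i => C.ℓ (b i)))) (hall : ∀ i, i ∈ Set.range b) : C.ArcRigid := by
  intro L hL0 _
  obtain ⟨g, hg, hgb⟩ := Pencil_g C b hb L hL0 (fun _ => 1) (fun _ => isUnit_one)
  refine ⟨g, fun _ => 1, hg, fun _ => isUnit_one, fun i => ?_⟩
  obtain ⟨j, rfl⟩ := hall i
  rw [one_smul]
  have h1 := hgb j
  rw [one_smul] at h1
  exact h1.symm

private theorem Pencil_cyc (k : Fin 3) : k + 1 ≠ k ∧ k + 2 ≠ k ∧ k + 1 ≠ k + 2 ∧ ∀ i : Fin 3, i = k ∨ i = k + 1 ∨ i = k + 2 := by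
  revert k
  decide

private theorem Pencil_detk {A : Type} [CommRing A] (k : Fin 3) (y : Fin 3 → A) :
    Matrix.det (Matrix.of ![Pi.single (k + 1) 1, Pi.single (k + 2) 1, y]) = y k := by
  rw [Matrix.det_fin_three]
  fin_cases k <;> simp [Pi.single_apply]

end Pool.Agent.Lib.MP_4318ff_ag
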