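import Mathlib

/-!
# MP_4318ff_ag, folder R: points of integral extensions, roots of monic complex polynomials
-/

set_option autoImplicit false

namespace Pool.Agent.Lib.MP_4318ff_ag

open Polynomial

/-- Extension of points along an integral ring homomorphism. -/
theorem R_ext {R S : Type} [CommRing R] [CommRing S] [Algebra ℂ S] [Algebra R S] [Algebra.IsIntegral R S]
    (i : ℂ →+* R) (hi : ∀ z, algebraMap R S (i z) = algebraMap ℂ S z)
    (φ : R →+* ℂ) (hφ : ∀ z, φ (i z) = z) (hker : ∀ x, algebraMap R S x = 0 → φ x = 0) :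
    ∃ ψ : S →ₐ[ℂ] ℂ, ∀ x, ψ (algebraMap R S x) = φ x := by
  have hsurj : Function.Surjective φ := fun z => ⟨i z, hφ z⟩
  have hmax : (RingHom.ker φ).IsMaximal := RingHom.ker_isMaximal_of_surjective φ hsurj
  obtain ⟨Q, hQ, hQc⟩ := Ideal.exists_ideal_over_maximal_of_isIntegral (S := S) (RingHom.ker φ)
    (fun x hx => hker x hx)
  have hcomp : (algebraMap ℂ (S ⧸ Q)).comp φ = (Ideal.Quotient.mk Q).comp (algebraMap R S) := by
    ext x
    have h1 : x - i (φ x) ∈ RingHom.ker φ := by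
      rw [RingHom.mem_ker, map_sub, hφ, sub_self]
    rw [← hQc, Ideal.mem_comap, map_sub, hi] at h1
    rw [RingHom.comp_apply, RingHom.comp_apply]
    exact (Ideal.Quotient.eq.2 h1).symm
  have : Nontrivial (S ⧸ Q) := Ideal.Quotient.nontrivial_iff.2 hQ.ne_top
  have : IsDomain (S ⧸ Q) := Ideal.Quotient.isDomain Q
  have hint : Algebra.IsIntegral ℂ (S ⧸ Q) := by
    refine ⟨fun y => ?_⟩
    obtain ⟨s, rfl⟩ := Ideal.Quotient.mk_surjective y
    obtain ⟨p, hp, hps⟩ := Algebra.IsIntegral.isIntegral (R := R) s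
    refine ⟨p.map φ, hp.map φ, ?_⟩
    rw [eval₂_map, hcomp, ← hom_eval₂, hps, map_zero]
  have hbij := IsAlgClosed.algebraMap_bijective_of_isIntegral (k := ℂ) (K := S ⧸ Q)
  let e : ℂ ≃ₐ[ℂ] (S ⧸ Q) := AlgEquiv.ofBijective (Algebra.ofId ℂ (S ⧸ Q)) hbij
  refine ⟨(e.symm : (S ⧸ Q) →ₐ[ℂ] ℂ).comp (Ideal.Quotient.mkₐ ℂ Q), fun x => ?_⟩
  change e.symm (Ideal.Quotient.mk Q (algebraMap R S x)) = φ x
  rw [AlgEquiv.symm_apply_eq]
  have h2 := RingHom.congr_fun hcomp x
  rw [RingHom.comp_apply, RingHom.comp_apply] at h2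
  exact h2.symm

private theorem R_prod (ρ : ℝ) (hρ : 0 ≤ ρ) (s : Multiset ℂ) :
    (∀ x ∈ s, ρ ≤ ‖x‖) → ρ ^ Multiset.card s ≤ ‖s.prod‖ := by
  induction s using Multiset.induction with
  | empty => intro _; simp
  | cons a s ih =>
    intro h
    rw [Multiset.card_cons, Multiset.prod_cons, norm_mul, pow_succ, mul_comm]
    exact mul_le_mul (h a (Multiset.mem_cons_self a s)) (ih fun x hx => h x (Multiset.mem_cons_of_mem hx))
      (pow_nonneg hρ _) (norm_nonneg _)

/-- A monic polynomial has a root whose power is bounded by the constant coefficient. -/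
theorem R_root (P : ℂ[X]) (hP : P.Monic) (hd : P.natDegree ≠ 0) :
    ∃ τ : ℂ, P.eval τ = 0 ∧ ‖τ‖ ^ P.natDegree ≤ ‖P.coeff 0‖ := by
  have hsp : P.Splits := IsAlgClosed.splits P
  have hcard : Multiset.card P.roots = P.natDegree := hsp.natDegree_eq_card_roots.symm
  have hne : P.roots.toFinset.Nonempty := by
    rw [Multiset.toFinset_nonempty]
    intro h
    rw [h, Multiset.card_zero] at hcard
    exact hd hcard.symm
  obtain ⟨τ, hτ, hmin⟩ := Finset.exists_min_image P.roots.toFinset (fun x => ‖x‖) hne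
  rw [Multiset.mem_toFinset] at hτ
  refine ⟨τ, ((mem_roots hP.ne_zero).1 hτ), ?_⟩
  rw [hsp.coeff_zero_eq_prod_roots_of_monic hP, norm_mul, norm_pow, norm_neg, norm_one, one_pow, one_mul, ← hcard]
  exact R_prod _ (norm_nonneg _) _ fun x hx => hmin x (Multiset.mem_toFinset.2 hx)

/-- A bound for the roots of a monic polynomial. -/
theorem R_bound (P : ℂ[X]) (hP : P.Monic) (x : ℂ) (hx : P.eval x = 0) :
    ‖x‖ ≤ 1 + ∑ i ∈ Finset.range P.natDegree, ‖P.coeff i‖ := by
  have hs0 : 0 ≤ ∑ i ∈ Finset.range P.natDegree, ‖P.coeff i‖ := Finset.sum_nonneg fun i _ => norm_nonneg _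
  by_cases h1 : ‖x‖ ≤ 1
  · linarith
  push Not at h1
  have hpos : 0 < ‖x‖ := lt_trans one_pos h1
  rw [eval_eq_sum_range, Finset.sum_range_succ, hP.coeff_natDegree, one_mul] at hx
  have h2 : x ^ P.natDegree = -∑ i ∈ Finset.range P.natDegree, P.coeff i * x ^ i :=
    eq_neg_of_add_eq_zero_right hx
  by_cases hd : P.natDegree = 0
  · rw [hd, pow_zero, Finset.range_zero, Finset.sum_empty, neg_zero] at h2
    exact absurd h2 one_ne_zero
  obtain ⟨m, hm⟩ := Nat.exists_eq_succ_of_ne_zero hd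
  have h3 : ‖x‖ ^ P.natDegree ≤ (∑ i ∈ Finset.range P.natDegree, ‖P.coeff i‖) * ‖x‖ ^ m := by
    rw [← norm_pow, h2, norm_neg, Finset.sum_mul]
    refine (norm_sum_le _ _).trans (Finset.sum_le_sum fun i hi => ?_)
    rw [norm_mul, norm_pow]
    refine mul_le_mul_of_nonneg_left ?_ (norm_nonneg _)
    rw [Finset.mem_range, hm] at hi
    exact pow_le_pow_right₀ h1.le (Nat.lt_succ_iff.1 hi)
  have h5 : ‖x‖ ^ P.natDegree = ‖x‖ * ‖x‖ ^ m := by
    rw [hm, Nat.succ_eq_add_one, pow_succ, mul_comm]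
  rw [h5] at h3
  have h4 := le_of_mul_le_mul_right h3 (pow_pos hpos m)
  linarith

end Pool.Agent.Lib.MP_4318ff_ag
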