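import Pool.Agent.Lib.MP_4318ff_ag.L.ArcLin
import Pool.Agent.Lib.MP_4318ff_ag.R.Key

/-!
# MP_4318ff_ag, folder R: rigid configurations (isolated points of the realization space) are arc rigid

First part: linear algebra and the case of four lines in general position.
-/

set_option autoImplicit false

namespace Pool.Agent.Lib.MP_4318ff_ag

open scoped LinearAlgebra.Projectivization

/-- The configuration is rigid: every small deformation `L` of the lines which preserves the incidences (the lines through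
every point of multiplicity at least `3` stay concurrent) is projectively equivalent to `C`. -/
def Config.Rigid {r : ℕ} (C : Config ℂ r) : Prop :=
  ∃ ε : ℝ, 0 < ε ∧ ∀ L : Fin r → Fin 3 → ℂ, (∀ i a, ‖L i a - C.ℓ i a‖ < ε) →
    (∀ P ∈ C.M, ∃ p : Fin 3 → ℂ, p ≠ 0 ∧ ∀ i ∈ C.through P, L i ⬝ᵥ p = 0) →
    ∃ (g : Matrix (Fin 3) (Fin 3) ℂ) (s : Fin r → ℂ), g.det ≠ 0 ∧ (∀ i, s i ≠ 0) ∧
      ∀ i, L i = s i • Matrix.vecMul (C.ℓ i) g

/-- the determinant of three rows is the triple product -/
theorem Rigid_det {A : Type} [CommRing A] (u v w : Fin 3 → A) :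
    Matrix.det (Matrix.of ![u, v, w]) = w ⬝ᵥ crossProduct u v := by
  rw [Matrix.det_fin_three, cross_apply, Matrix.vec3_dotProduct]
  simp only [Matrix.of_apply, Matrix.cons_val_zero, Matrix.cons_val_one, Matrix.cons_val]
  ring

/-- a nonzero vector orthogonal to a given one -/
theorem Rigid_orth (v : Fin 3 → ℂ) : ∃ p : Fin 3 → ℂ, p ≠ 0 ∧ v ⬝ᵥ p = 0 := by
  by_cases h : v 0 = 0
  · refine ⟨Pi.single 0 1, ?_, ?_⟩
    · intro h1
      have h2 := congrFun h1 0
      simp at h2
    · rw [dotProduct_single, h, zero_mul]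
  · refine ⟨![v 1, -v 0, 0], ?_, ?_⟩
    · intro h1
      have h2 := congrFun h1 1
      simp at h2
      exact h h2
    · rw [Matrix.vec3_dotProduct]
      simp
      ring

/-- vectors with all determinants zero have a common zero -/
theorem Rigid_common {ι : Type} (T : Set ι) (v : ι → Fin 3 → ℂ)
    (h : ∀ i ∈ T, ∀ j ∈ T, ∀ m ∈ T, Matrix.det (Matrix.of ![v i, v j, v m]) = 0) :
    ∃ p : Fin 3 → ℂ, p ≠ 0 ∧ ∀ i ∈ T, v i ⬝ᵥ p = 0 := by
  by_cases h1 : ∃ i ∈ T, ∃ j ∈ T, crossProduct (v i) (v j) ≠ 0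
  · obtain ⟨i, hi, j, hj, hij⟩ := h1
    refine ⟨_, hij, fun m hm => ?_⟩
    rw [← Rigid_det]
    exact h i hi j hj m hm
  · push Not at h1
    by_cases h2 : ∃ i ∈ T, v i ≠ 0
    · obtain ⟨i, hi, hvi⟩ := h2
      obtain ⟨p, hp, hip⟩ := Rigid_orth (v i)
      refine ⟨p, hp, fun j hj => ?_⟩
      have h3 := h1 i hi j hj
      have h4 : ¬ LinearIndependent ℂ ![v i, v j] := fun hl =>
        (crossProduct_ne_zero_iff_linearIndependent.2 hl) h3
      rw [LinearIndependent.pair_iff' hvi] at h4
      push Not at h4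
      obtain ⟨a, ha⟩ := h4
      rw [← ha, smul_dotProduct, hip, smul_zero]
    · push Not at h2
      refine ⟨Pi.single 0 1, ?_, fun i hi => ?_⟩
      · intro h3
        have h4 := congrFun h3 0
        simp at h4
      · rw [h2 i hi, zero_dotProduct]

/-! ### Linear maps with prescribed values -/

theorem Rigid_map {A : Type} [CommRing A] (u v : Fin 3 → Fin 3 → A) (hu : IsUnit (Matrix.det (Matrix.of u)))
    (α : Fin 3 → A) (i : Fin 3) :
    Matrix.vecMul (u i) ((Matrix.of u)⁻¹ * Matrix.diagonal α * Matrix.of v) = α i • v i := by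
  have h1 : u i = Matrix.vecMul (Pi.single i 1) (Matrix.of u) := by
    rw [Matrix.single_one_vecMul]
    rfl
  rw [h1, Matrix.vecMul_vecMul, Matrix.mul_assoc, ← Matrix.mul_assoc (Matrix.of u), Matrix.mul_nonsing_inv _ hu,
    Matrix.one_mul, Matrix.single_one_vecMul]
  funext a
  rw [Matrix.row_apply, Matrix.diagonal_mul]
  rfl

theorem Rigid_det3 {A : Type} [CommRing A] (s t w : A) (u v z : Fin 3 → A) (h : Matrix (Fin 3) (Fin 3) A) :
    Matrix.det (Matrix.of ![s • Matrix.vecMul u h, t • Matrix.vecMul v h, w • Matrix.vecMul z h]) =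
      s * t * w * (Matrix.det (Matrix.of ![u, v, z]) * Matrix.det h) := by
  have h1 : Matrix.of ![s • Matrix.vecMul u h, t • Matrix.vecMul v h, w • Matrix.vecMul z h] =
      Matrix.diagonal ![s, t, w] * (Matrix.of ![u, v, z] * h) := by
    ext i a
    rw [Matrix.diagonal_mul]
    fin_cases i <;> rfl
  rw [h1, Matrix.det_mul, Matrix.det_mul, Matrix.det_diagonal, Fin.prod_univ_three]
  rfl

/-- the forms with constant coefficients -/
noncomputable def Rigid_hat (l : Fin 3 → ℂ) : Fin 3 → PowerSeries ℂ := fun a => PowerSeries.C (l a)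

theorem Rigid_c0_vecMul (v : Fin 3 → PowerSeries ℂ) (M : Matrix (Fin 3) (Fin 3) (PowerSeries ℂ)) (a : Fin 3) :
    PowerSeries.constantCoeff (Matrix.vecMul v M a) =
      Matrix.vecMul (fun b => PowerSeries.constantCoeff (v b))
        ((PowerSeries.constantCoeff (R := ℂ)).mapMatrix M) a := by
  rw [Matrix.vecMul, Matrix.vecMul, dotProduct, dotProduct, map_sum]
  refine Finset.sum_congr rfl fun b _ => ?_
  rw [map_mul]
  rfl

/-- every form is a combination of the rows of an invertible matrix in one way only -/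
theorem Rigid_inj {A : Type} [CommRing A] (M : Matrix (Fin 3) (Fin 3) A) (hM : IsUnit M.det)
    (y z : Fin 3 → A) (h : Matrix.vecMul y M = Matrix.vecMul z M) : y = z := by
  have h1 := congrArg (fun v => Matrix.vecMul v M⁻¹) h
  simp only [Matrix.vecMul_vecMul, Matrix.mul_nonsing_inv _ hM, Matrix.vecMul_one] at h1
  exact h1

/-- a matrix with four eigenvectors in general position is scalar -/
theorem Rigid_scalar (l : Fin 3 → Fin 3 → ℂ) (hl : IsUnit (Matrix.det (Matrix.of l))) (x : Fin 3 → ℂ)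
    (hx : ∀ i, x i ≠ 0) (g : Matrix (Fin 3) (Fin 3) ℂ) (μ : Fin 3 → ℂ) (ν : ℂ)
    (hg : ∀ i, Matrix.vecMul (l i) g = μ i • l i)
    (hd : Matrix.vecMul (Matrix.vecMul x (Matrix.of l)) g = ν • Matrix.vecMul x (Matrix.of l)) :
    ∀ v : Fin 3 → ℂ, Matrix.vecMul v g = ν • v := by
  have h1 : Matrix.of l * g = Matrix.diagonal μ * Matrix.of l := by
    ext i a
    rw [Matrix.diagonal_mul]
    exact congrFun (hg i) a
  have h2 : (fun i => x i * μ i) = fun i => ν * x i := by
    refine Rigid_inj (Matrix.of l) hl _ _ ?_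
    have h3 : (fun i => x i * μ i) = Matrix.vecMul x (Matrix.diagonal μ) := by
      funext i
      rw [Matrix.vecMul_diagonal]
    have h4 : (fun i => ν * x i) = ν • x := rfl
    rw [h3, h4, Matrix.smul_vecMul, Matrix.vecMul_vecMul, ← h1, ← Matrix.vecMul_vecMul, hd]
  have h5 : ∀ i, μ i = ν := by
    intro i
    have h6 : x i * μ i = ν * x i := congrFun h2 i
    rw [mul_comm] at h6
    exact mul_right_cancel₀ (hx i) h6
  have h7 : Matrix.of l * g = ν • Matrix.of l := by
    rw [h1]
    ext i a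
    rw [Matrix.diagonal_mul, h5 i]
    rfl
  intro v
  have h8 : g = ν • (1 : Matrix (Fin 3) (Fin 3) ℂ) := by
    have h9 := congrArg (fun M => (Matrix.of l)⁻¹ * M) h7
    simp only [← Matrix.mul_assoc, Matrix.nonsing_inv_mul _ hl, Matrix.one_mul, Matrix.mul_smul] at h9
    exact h9
  rw [h8, Matrix.vecMul_smul, Matrix.vecMul_one]

/-! ### Four lines in general position -/

/-- Rigid configurations with four lines in general position are arc rigid. -/
theorem Rigid_frame {r : ℕ} (C : Config ℂ r) (b : Fin 3 → Fin r) (d : Fin r)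
    (hb : IsUnit (Matrix.det (Matrix.of fun i => C.ℓ (b i)))) (x : Fin 3 → ℂ) (hx : ∀ i, x i ≠ 0)
    (hd : C.ℓ d = Matrix.vecMul x (Matrix.of fun i => C.ℓ (b i))) (hC : C.Rigid) : C.ArcRigid := by
  classical
  intro L hL0 hdet
  -- the forms are not zero
  have hlne : ∀ i, C.ℓ i ≠ 0 := by
    intro i h0
    have h1 : ∃ m, m ≠ i := by
      by_contra hno
      push Not at hno
      have h2 : b 0 = b 1 := (hno (b 0)).trans (hno (b 1)).symm
      have h3 : Matrix.det (Matrix.of fun i => C.ℓ (b i)) = 0 :=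
        Matrix.det_zero_of_row_eq (i := 0) (j := 1) (by decide) (by
          change C.ℓ (b 0) = C.ℓ (b 1)
          rw [h2])
      rw [h3] at hb
      exact not_isUnit_zero hb
    obtain ⟨m, hm⟩ := h1
    exact (C.indep i m hm.symm).ne_zero 0 h0
  -- constant coefficients
  set c0 : PowerSeries ℂ →+* ℂ := PowerSeries.constantCoeff with hc0
  set Λ : Matrix (Fin 3) (Fin 3) (PowerSeries ℂ) := Matrix.of fun i => L (b i) with hΛ
  set Λ0 : Matrix (Fin 3) (Fin 3) ℂ := Matrix.of fun i => C.ℓ (b i) with hΛ0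
  have hcΛ : c0.mapMatrix Λ = Λ0 := by
    ext i a
    exact hL0 (b i) a
  have hunit : ∀ M : Matrix (Fin 3) (Fin 3) (PowerSeries ℂ), IsUnit (c0.mapMatrix M).det → IsUnit M.det := by
    intro M hM
    rw [PowerSeries.isUnit_iff_constantCoeff]
    have h1 : PowerSeries.constantCoeff M.det = (c0.mapMatrix M).det := by
      rw [← hc0, RingHom.map_det]
    rw [h1]
    exact hM
  have hΛu : IsUnit Λ.det := hunit Λ (by rw [hcΛ]; exact hb)
  set y : Fin 3 → PowerSeries ℂ := Matrix.vecMul (L d) Λ⁻¹ with hy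
  have hyΛ : Matrix.vecMul y Λ = L d := by
    rw [hy, Matrix.vecMul_vecMul, Matrix.nonsing_inv_mul _ hΛu, Matrix.vecMul_one]
  have hcy : ∀ i, c0 (y i) = x i := by
    have h1 : (fun i => c0 (y i)) = x := by
      refine Rigid_inj Λ0 hb _ _ ?_
      rw [← hd]
      funext a
      have h2 := congrArg c0 (congrFun hyΛ a)
      rw [hc0, Rigid_c0_vecMul, ← hc0, hcΛ] at h2
      rw [h2]
      exact hL0 d a
    intro i
    exact congrFun h1 i
  set α : Fin 3 → PowerSeries ℂ := fun i => y i * PowerSeries.C (x i)⁻¹ with hα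
  have hcα : ∀ i, c0 (α i) = 1 := by
    intro i
    simp only [hα]
    rw [map_mul, hcy, hc0, PowerSeries.constantCoeff_C, mul_inv_cancel₀ (hx i)]
  set Λh : Matrix (Fin 3) (Fin 3) (PowerSeries ℂ) := Matrix.of fun i => Rigid_hat (C.ℓ (b i)) with hΛh
  have hcΛh : c0.mapMatrix Λh = Λ0 := by
    ext i a
    change c0 (PowerSeries.C (C.ℓ (b i) a)) = C.ℓ (b i) a
    rw [hc0, PowerSeries.constantCoeff_C]
  have hΛhu : IsUnit Λh.det := hunit Λh (by rw [hcΛh]; exact hb)
  set g : Matrix (Fin 3) (Fin 3) (PowerSeries ℂ) := Λh⁻¹ * Matrix.diagonal α * Λ with hg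
  have hgb : ∀ i, Matrix.vecMul (Rigid_hat (C.ℓ (b i))) g = α i • L (b i) := fun i =>
    Rigid_map (fun i => Rigid_hat (C.ℓ (b i))) (fun i => L (b i)) hΛhu α i
  have hgd : Matrix.vecMul (Rigid_hat (C.ℓ d)) g = L d := by
    have h1 : Rigid_hat (C.ℓ d) = Matrix.vecMul (fun i => PowerSeries.C (x i)) Λh := by
      funext a
      change PowerSeries.C (C.ℓ d a) = _
      rw [hd, Matrix.vecMul, Matrix.vecMul, dotProduct, dotProduct, map_sum]
      refine Finset.sum_congr rfl fun i _ => ?_
      rw [map_mul]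
      rfl
    have h2 : (fun i => PowerSeries.C (x i) * α i) = y := by
      funext i
      simp only [hα]
      rw [mul_comm (y i), ← mul_assoc, ← map_mul, mul_inv_cancel₀ (hx i), map_one, one_mul]
    have h3 : Matrix.vecMul (fun i => PowerSeries.C (x i)) (Matrix.diagonal α) = y := by
      rw [← h2]
      funext i
      rw [Matrix.vecMul_diagonal]
    rw [h1, hg, Matrix.vecMul_vecMul, Matrix.mul_assoc, ← Matrix.mul_assoc Λh, Matrix.mul_nonsing_inv _ hΛhu,
      Matrix.one_mul, ← Matrix.vecMul_vecMul, h3, hyΛ]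
  have hcg : c0.mapMatrix g = 1 := by
    have h1 : Λ0 * c0.mapMatrix g = Λ0 := by
      ext i a
      have h2 := congrArg c0 (congrFun (hgb i) a)
      rw [hc0, Rigid_c0_vecMul, ← hc0] at h2
      have h3 : (fun a => c0 (Rigid_hat (C.ℓ (b i)) a)) = C.ℓ (b i) := by
        funext a
        change c0 (PowerSeries.C (C.ℓ (b i) a)) = _
        rw [hc0, PowerSeries.constantCoeff_C]
      have h5 : c0 ((α i • L (b i)) a) = C.ℓ (b i) a := by
        rw [Pi.smul_apply, smul_eq_mul, map_mul, hcα, one_mul]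
        exact hL0 (b i) a
      rw [h3, h5] at h2
      exact h2
    have h4 := congrArg (fun M => Λ0⁻¹ * M) h1
    simp only [← Matrix.mul_assoc, Matrix.nonsing_inv_mul _ hb, Matrix.one_mul] at h4
    exact h4
  have hgu : IsUnit g.det := hunit g (by rw [hcg, Matrix.det_one]; exact isUnit_one)
  set h : Matrix (Fin 3) (Fin 3) (PowerSeries ℂ) := g⁻¹ with hh
  have hgh : g * h = 1 := Matrix.mul_nonsing_inv _ hgu
  have hhg : h * g = 1 := Matrix.nonsing_inv_mul _ hgu
  have hch : c0.mapMatrix h = 1 := by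
    have h1 := congrArg c0.mapMatrix hgh
    rw [map_mul, hcg, one_mul, map_one] at h1
    exact h1
  set N' : Fin r → Fin 3 → PowerSeries ℂ := fun i => Matrix.vecMul (L i) h with hN'
  have hcN' : ∀ i a, c0 (N' i a) = C.ℓ i a := by
    intro i a
    simp only [hN']
    rw [hc0, Rigid_c0_vecMul, ← hc0, hch, Matrix.vecMul_one]
    exact hL0 i a
  -- normalisation
  choose e he using fun i => Function.ne_iff.1 (hlne i)
  have he' : ∀ i, C.ℓ i (e i) ≠ 0 := he
  set u : Fin r → PowerSeries ℂ := fun i => N' i (e i) * PowerSeries.C (C.ℓ i (e i))⁻¹ with hu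
  have hcu : ∀ i, c0 (u i) = 1 := by
    intro i
    simp only [hu]
    rw [map_mul, hcN', hc0, PowerSeries.constantCoeff_C, mul_inv_cancel₀ (he' i)]
  have huu : ∀ i, u i * (u i)⁻¹ = 1 := fun i => PowerSeries.mul_inv_cancel _ (by
    rw [← hc0, hcu i]
    exact one_ne_zero)
  have hcui : ∀ i, c0 (u i)⁻¹ = 1 := by
    intro i
    have h1 := congrArg c0 (huu i)
    rw [map_mul, hcu, one_mul, map_one] at h1
    exact h1
  have hNe : ∀ i, N' i (e i) = u i * PowerSeries.C (C.ℓ i (e i)) := by
    intro i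
    simp only [hu]
    rw [mul_assoc, ← map_mul, inv_mul_cancel₀ (he' i), map_one, mul_one]
  set N : Fin r × Fin 3 → PowerSeries ℂ := fun q => (u q.1)⁻¹ * N' q.1 q.2 with hN
  have hcN : ∀ q, c0 (N q) = C.ℓ q.1 q.2 := by
    intro q
    simp only [hN]
    rw [map_mul, hcui, hcN', one_mul]
  have hNE : ∀ i, N (i, e i) = PowerSeries.C (C.ℓ i (e i)) := by
    intro i
    simp only [hN]
    rw [hNe, ← mul_assoc, mul_comm (u i)⁻¹, huu, one_mul]
  -- the frame is constant
  have hNconst : ∀ i, (∃ w : PowerSeries ℂ, ∀ a, w * N' i a = PowerSeries.C (C.ℓ i a)) →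
      ∀ a, N (i, a) = PowerSeries.C (C.ℓ i a) := by
    rintro i ⟨w, hw⟩ a
    have h1 : w * u i = 1 := by
      simp only [hu]
      rw [← mul_assoc, hw, ← map_mul, mul_inv_cancel₀ (he' i), map_one]
    have h2 : (u i)⁻¹ = w := by
      calc (u i)⁻¹ = (w * u i) * (u i)⁻¹ := by rw [h1, one_mul]
        _ = w := by rw [mul_assoc, huu, mul_one]
    simp only [hN]
    rw [h2, hw]
  have hNb : ∀ i a, N (b i, a) = PowerSeries.C (C.ℓ (b i) a) := by
    intro i
    refine hNconst (b i) ⟨α i, fun a => ?_⟩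
    have h1 := congrArg (fun v => Matrix.vecMul v h) (hgb i)
    simp only [Matrix.vecMul_vecMul, hgh, Matrix.vecMul_one, Matrix.smul_vecMul] at h1
    exact (congrFun h1 a).symm
  have hNd : ∀ a, N (d, a) = PowerSeries.C (C.ℓ d a) := by
    refine hNconst d ⟨1, fun a => ?_⟩
    have h1 := congrArg (fun v => Matrix.vecMul v h) hgd
    simp only [Matrix.vecMul_vecMul, hgh, Matrix.vecMul_one] at h1
    rw [one_mul]
    exact (congrFun h1 a).symm
  -- the incidences
  have hNdet : ∀ P ∈ C.M, ∀ i ∈ C.through P, ∀ j ∈ C.through P, ∀ m ∈ C.through P,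
      Matrix.det (Matrix.of ![fun a => N (i, a), fun a => N (j, a), fun a => N (m, a)]) = 0 := by
    intro P hP i hi j hj m hm
    have h1 := Rigid_det3 (u i)⁻¹ (u j)⁻¹ (u m)⁻¹ (L i) (L j) (L m) h
    rw [hdet P hP i hi j hj m hm, zero_mul, mul_zero] at h1
    exact h1
  -- the arc is constant
  have hconst : ∀ q, N q = PowerSeries.C (PowerSeries.constantCoeff (N q)) := by
    by_contra hno
    push Not at hno
    obtain ⟨ε, hε, hrig⟩ := hC
    obtain ⟨x', hz, hne, hclose⟩ := R_key N hno ε hε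
    have hcN' : ∀ q, PowerSeries.constantCoeff (N q) = C.ℓ q.1 q.2 := hcN
    have hfix : ∀ q (z : ℂ), N q = PowerSeries.C z → x' q = z := by
      intro q z hq
      have h1 := hz (MvPolynomial.X q - MvPolynomial.C z) (by
        rw [map_sub, MvPolynomial.aeval_X, MvPolynomial.aeval_C, hq, PowerSeries.algebraMap_apply]
        simp)
      rw [map_sub, MvPolynomial.aeval_X, MvPolynomial.aeval_C] at h1
      exact sub_eq_zero.1 h1
    obtain ⟨g', s', hg', hs', hL'⟩ := hrig (fun i a => x' (i, a)) (by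
      intro i a
      have h1 := hclose (i, a)
      rw [hcN'] at h1
      exact h1) (by
      intro P hP
      refine Rigid_common (C.through P) (fun i a => x' (i, a)) ?_
      intro i hi j hj m hm
      have h1 := hz (Matrix.det (Matrix.of ![fun a => MvPolynomial.X (i, a), fun a => MvPolynomial.X (j, a),
        fun a => MvPolynomial.X (m, a)])) (by
          rw [Matrix.det_fin_three]
          have h2 := hNdet P hP i hi j hj m hm
          rw [Matrix.det_fin_three] at h2
          simpa using h2)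
      rw [Matrix.det_fin_three] at h1 ⊢
      simpa using h1)
    have hL'' : ∀ i a, x' (i, a) = s' i * Matrix.vecMul (C.ℓ i) g' a := fun i a => congrFun (hL' i) a
    have heig : ∀ i, (∀ a, x' (i, a) = C.ℓ i a) → Matrix.vecMul (C.ℓ i) g' = (s' i)⁻¹ • C.ℓ i := by
      intro i hi
      funext a
      rw [Pi.smul_apply, smul_eq_mul, ← hi a, hL'' i a, ← mul_assoc, inv_mul_cancel₀ (hs' i), one_mul]
    have hsc := Rigid_scalar (fun i => C.ℓ (b i)) hb x hx g' (fun i => (s' (b i))⁻¹) (s' d)⁻¹
      (fun i => heig (b i) fun a => hfix _ _ (hNb i a)) (by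
        rw [← hd]
        exact heig d fun a => hfix _ _ (hNd a))
    apply hne
    funext q
    obtain ⟨i, a⟩ := q
    change x' (i, a) = PowerSeries.constantCoeff (N (i, a))
    rw [hcN', hL'' i a, hsc, Pi.smul_apply, smul_eq_mul]
    have h3 := hfix _ _ (hNE i)
    rw [hL'' i (e i), hsc, Pi.smul_apply, smul_eq_mul, ← mul_assoc] at h3
    have h4 : s' i * (s' d)⁻¹ = 1 := mul_right_cancel₀ (he' i) (by rw [h3, one_mul])
    rw [← mul_assoc, h4, one_mul]
  refine ⟨g, u, hgu, fun i => ?_, fun i => ?_⟩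
  · rw [PowerSeries.isUnit_iff_constantCoeff, ← hc0, hcu]
    exact isUnit_one
  · have h1 : N' i = u i • Rigid_hat (C.ℓ i) := by
      funext a
      have h2 := hconst (i, a)
      have h3 : PowerSeries.constantCoeff (N (i, a)) = C.ℓ i a := hcN (i, a)
      rw [h3] at h2
      simp only [hN] at h2
      change N' i a = u i * PowerSeries.C (C.ℓ i a)
      rw [← h2, ← mul_assoc, huu, one_mul]
    have h4 : Matrix.vecMul (N' i) g = L i := by
      simp only [hN']
      rw [Matrix.vecMul_vecMul, hhg, Matrix.vecMul_one]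
    rw [← h4, h1, Matrix.smul_vecMul]
    rfl

end Pool.Agent.Lib.MP_4318ff_ag
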